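import Pool.Graph.R_pool_sql_team_79ade240.H21.GroupTestingProof
import Mathlib.NumberTheory.Chebyshev

/-!
# Two-stage group testing with arithmetic-progression tests: the combinatorial core

This is the argument of the library module `R_pool_sql_team_79ade240/H21/GroupTestingProof`, with the
residues modulo `lcm (1, …, D k)` in place of the residues modulo all `d ≤ D k`.
-/

set_option autoImplicit false

open Finset

namespace Pool.Agent.KS6_51.APT

open Pool.Agent.H21.GroupTesting

/-- combinatorial core -/
theorem core' (n k m q D h : ℕ) (hk : 1 ≤ k) (hD : 1 ≤ D) (hn : (2 * m + 1) * h ≤ n)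
    (hDk : D * k ≤ h) (hP : HasProcedure n k m q) :
    ∃ g : ℕ, h ≤ 2 * g ∧ g.choose k ≤
      2 ^ q * (Nat.lcmUpto (D * k) ^ k *
        ((univ : Finset (Finset (Fin m))).filter (fun W => W.card * D ≤ 4 * m)).card) := by
  classical
  obtain ⟨T, Q, hT, hQ, hsucc⟩ := hP
  choose a d l ha hd hal hTeq using hT
  have hh : 0 < h := by
    have : 1 ≤ D * k := Nat.mul_pos hD hk
    omega
  -- membership in tests
  have hmemT : ∀ i x, x ∈ T i ↔ a i ≤ x ∧ x ≤ a i + l i * d i ∧ x % d i = a i % d i := by
    intro i x
    rw [hTeq i, mem_image]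
    constructor
    · rintro ⟨t, ht, rfl⟩
      rw [mem_range] at ht
      refine ⟨by omega, ?_, by simp⟩
      have : t * d i ≤ l i * d i := Nat.mul_le_mul_right _ (by omega)
      omega
    · rintro ⟨h1, h2, h3⟩
      have hdvd : d i ∣ x - a i := (Nat.modEq_iff_dvd' h1).1 h3.symm
      obtain ⟨t, ht⟩ := hdvd
      refine ⟨t, ?_, ?_⟩
      · rw [mem_range]
        by_contra hlt
        push Not at hlt
        have h4 : d i * (l i + 1) ≤ d i * t := Nat.mul_le_mul_left _ hlt
        have h5 : d i * (l i + 1) = l i * d i + d i := by ring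
        have := hd i
        omega
      · rw [mul_comm] at ht
        omega
  -- the block avoiding all endpoints
  obtain ⟨s, hs1, hsn, hsE⟩ := exists_block n m h
    ((univ.image a) ∪ (univ.image fun i => a i + l i * d i))
    (by
      refine (card_union_le _ _).trans ?_
      have h1 := card_image_le (s := (univ : Finset (Fin m))) (f := a)
      have h2 := card_image_le (s := (univ : Finset (Fin m))) (f := fun i => a i + l i * d i)
      rw [card_univ, Fintype.card_fin] at h1 h2
      omega) hn
  have hsa : ∀ i, a i < s ∨ s + h ≤ a i := fun i =>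
    hsE _ (mem_union_left _ (mem_image_of_mem _ (mem_univ i)))
  have hsb : ∀ i, a i + l i * d i < s ∨ s + h ≤ a i + l i * d i := fun i =>
    hsE _ (mem_union_right _ (mem_image.2 ⟨i, mem_univ i, rfl⟩))
  set J := Ico s (s + h) with hJ
  -- a test is active if it covers `J`
  let act : Fin m → Prop := fun i => a i < s ∧ s + h ≤ a i + l i * d i
  have hTJ : ∀ i, ∀ x ∈ J, (x ∈ T i ↔ act i ∧ x % d i = a i % d i) := by
    intro i x hx
    rw [hmemT i x]
    rw [hJ, mem_Ico] at hx
    constructor
    · rintro ⟨h1, h2, h3⟩
      refine ⟨⟨?_, ?_⟩, h3⟩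
      · rcases hsa i with h | h <;> omega
      · rcases hsb i with h | h <;> omega
    · rintro ⟨⟨h1, h2⟩, h3⟩
      exact ⟨by omega, by omega, h3⟩
  -- number of large tests through a point
  let c : ℕ → ℕ := fun x => ((univ : Finset (Fin m)).filter
    (fun i => D * k < d i ∧ x ∈ T i)).card
  have hsum : (∑ x ∈ J, c x) * (D * k) ≤ 2 * m * h := by
    have h1 : ∑ x ∈ J, c x = ∑ i ∈ (univ : Finset (Fin m)).filter (fun i => D * k < d i),
        (J.filter (fun x => x ∈ T i)).card := by
      have h0 : ∀ x ∈ J, c x = ∑ i : Fin m, if D * k < d i ∧ x ∈ T i then 1 else 0 := by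
        intro x _
        exact card_filter _ _
      rw [sum_congr rfl h0, sum_comm, sum_filter]
      apply sum_congr rfl
      intro i _
      by_cases hi : D * k < d i
      · simp only [hi, true_and, if_true, card_filter]
      · simp [hi]
    rw [h1, sum_mul]
    have h2 : ∀ i ∈ (univ : Finset (Fin m)).filter (fun i => D * k < d i),
        (J.filter (fun x => x ∈ T i)).card * (D * k) ≤ 2 * h := by
      intro i hi
      rw [mem_filter] at hi
      have h3 : (J.filter (fun x => x ∈ T i)).card ≤ h / d i + 1 := by
        refine le_trans (card_le_card ?_) (card_class_le s h (d i) (a i % d i))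
        intro x hx
        rw [mem_filter] at hx ⊢
        exact ⟨hx.1, ((hTJ i x hx.1).1 hx.2).2⟩
      calc (J.filter (fun x => x ∈ T i)).card * (D * k) ≤ (h / d i + 1) * (D * k) :=
            Nat.mul_le_mul_right _ h3
        _ = h / d i * (D * k) + D * k := by ring
        _ ≤ h / d i * d i + h := by
            apply Nat.add_le_add _ hDk
            exact Nat.mul_le_mul_left _ hi.2.le
        _ ≤ 2 * h := by
            have := Nat.div_mul_le_self h (d i)
            omega
    calc _ ≤ ∑ i ∈ (univ : Finset (Fin m)).filter (fun i => D * k < d i), 2 * h :=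
          sum_le_sum h2
      _ ≤ 2 * m * h := by
          rw [sum_const, smul_eq_mul]
          have : ((univ : Finset (Fin m)).filter (fun i => D * k < d i)).card ≤ m := by
            refine (card_filter_le _ _).trans ?_
            simp
          calc _ ≤ m * (2 * h) := Nat.mul_le_mul_right _ this
            _ = 2 * m * h := by ring
  -- good points
  set G := J.filter (fun x => c x * (D * k) ≤ 4 * m) with hG
  have hGcard : h ≤ 2 * G.card := by
    have h1 : (J.filter (fun x => ¬ c x * (D * k) ≤ 4 * m)).card * (4 * m + 1) ≤ 2 * m * h := by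
      refine le_trans ?_ hsum
      rw [sum_mul, ← smul_eq_mul, ← sum_const]
      calc ∑ x ∈ J.filter (fun x => ¬ c x * (D * k) ≤ 4 * m), (4 * m + 1)
          ≤ ∑ x ∈ J.filter (fun x => ¬ c x * (D * k) ≤ 4 * m), c x * (D * k) := by
            apply sum_le_sum
            intro x hx
            rw [mem_filter] at hx
            omega
        _ ≤ ∑ x ∈ J, c x * (D * k) := sum_le_sum_of_subset (filter_subset _ _)
    have h2 : G.card + (J.filter (fun x => ¬ c x * (D * k) ≤ 4 * m)).card = h := by
      rw [hG, card_filter_add_card_filter_not, hJ, Nat.card_Ico]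
      omega
    set b := (J.filter (fun x => ¬ c x * (D * k) ≤ 4 * m)).card
    have h3 : 2 * b ≤ h := by
      by_contra hcon
      push Not at hcon
      have : 2 * (2 * m * h) < 2 * (b * (4 * m + 1)) := by nlinarith
      omega
    omega
  refine ⟨G.card, hGcard, ?_⟩
  -- fingerprints
  have hΛ : 0 < Nat.lcmUpto (D * k) := Nat.lcmUpto_pos _
  let P : Finset ℕ → Finset ℕ := fun S => S.image (fun x => x % Nat.lcmUpto (D * k))
  let W : Finset ℕ → Finset (Fin m) := fun S =>
    univ.filter (fun i => D * k < d i ∧ ∃ x ∈ S, x ∈ T i)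
  have hans : ∀ S S' : Finset ℕ, S ⊆ G → S' ⊆ G → P S = P S' → W S = W S' →
      ∀ i, (T i ∩ S = ∅ ↔ T i ∩ S' = ∅) := by
    have hone : ∀ S S' : Finset ℕ, S ⊆ G → S' ⊆ G → P S = P S' → W S = W S' →
      ∀ i, (T i ∩ S' = ∅ → T i ∩ S = ∅) := by
      intro S S' hS hS' hPP hWW i h0
      by_contra hne
      obtain ⟨x, hx⟩ := nonempty_iff_ne_empty.2 hne
      rw [mem_inter] at hx
      have hxJ : x ∈ J := (filter_subset _ _) (hS hx.2)
      have hxT := (hTJ i x hxJ).1 hx.1
      rcases Nat.lt_or_ge (D * k) (d i) with hlt | hge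
      · have : i ∈ W S := by
          simp only [W, mem_filter, mem_univ, true_and]
          exact ⟨hlt, x, hx.2, hx.1⟩
        rw [hWW] at this
        simp only [W, mem_filter, mem_univ, true_and] at this
        obtain ⟨_, y, hy, hyT⟩ := this
        have : y ∈ T i ∩ S' := mem_inter.2 ⟨hyT, hy⟩
        rw [h0] at this
        simp at this
      · have hmem : x % Nat.lcmUpto (D * k) ∈ P S := mem_image_of_mem _ hx.2
        rw [hPP] at hmem
        obtain ⟨y, hy, hyx⟩ := mem_image.1 hmem
        have hdvd : d i ∣ Nat.lcmUpto (D * k) := by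
          unfold Nat.lcmUpto
          exact dvd_lcm (f := id) (mem_Icc.2 ⟨hd i, hge⟩)
        have hyx' : y ≡ x [MOD d i] := Nat.ModEq.of_dvd hdvd hyx
        have hyJ : y ∈ J := (filter_subset _ _) (hS' hy)
        have hyT : y ∈ T i := (hTJ i y hyJ).2 ⟨hxT.1, by rw [← hxT.2]; exact hyx'⟩
        have : y ∈ T i ∩ S' := mem_inter.2 ⟨hyT, hy⟩
        rw [h0] at this
        simp at this
    intro S S' hS hS' hPP hWW i
    exact ⟨hone S' S hS' hS hPP.symm hWW.symm i, hone S S' hS hS' hPP hWW i⟩
  have hGn : G ⊆ Icc 1 n := by
    intro x hx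
    have hxJ : x ∈ J := (filter_subset _ _) hx
    rw [hJ, mem_Ico] at hxJ
    rw [mem_Icc]
    omega
  have hWcard : ∀ S ⊆ G, S.card = k → (W S).card * D ≤ 4 * m := by
    intro S hS hSk
    have h1 : (W S).card ≤ ∑ x ∈ S, c x := by
      have : W S ⊆ S.biUnion (fun x => univ.filter (fun i => D * k < d i ∧ x ∈ T i)) := by
        intro i hi
        simp only [W, mem_filter, mem_univ, true_and] at hi
        obtain ⟨h2, x, hx, hxT⟩ := hi
        rw [mem_biUnion]
        exact ⟨x, hx, by simp [h2, hxT]⟩
      exact (card_le_card this).trans card_biUnion_le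
    have h2 : (∑ x ∈ S, c x) * (D * k) ≤ k * (4 * m) := by
      rw [sum_mul]
      calc ∑ x ∈ S, c x * (D * k) ≤ ∑ x ∈ S, 4 * m := by
            apply sum_le_sum
            intro x hx
            have := hS hx
            rw [hG, mem_filter] at this
            exact this.2
        _ = k * (4 * m) := by rw [sum_const, smul_eq_mul, hSk]
    have h3 : ((W S).card * D) * k ≤ (4 * m) * k := by
      calc ((W S).card * D) * k = (W S).card * (D * k) := by ring
        _ ≤ (∑ x ∈ S, c x) * (D * k) := Nat.mul_le_mul_right _ h1
        _ ≤ k * (4 * m) := h2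
        _ = (4 * m) * k := by ring
    exact Nat.le_of_mul_le_mul_right h3 hk
  -- counting
  have hmain := Finset.card_le_mul_card_image_of_maps_to
    (s := G.powersetCard k)
    (t := ((univ : Finset (Fin k → Fin (Nat.lcmUpto (D * k)))).image
        (fun f => (univ : Finset (Fin k)).image (fun i => ((f i : Fin _) : ℕ)))) ×ˢ
      ((univ : Finset (Finset (Fin m))).filter (fun W => W.card * D ≤ 4 * m)))
    (f := fun S => (P S, W S))
    (by
      intro S hS
      rw [mem_powersetCard] at hS
      rw [mem_product]
      refine ⟨?_, ?_⟩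
      · rw [mem_image]
        let e : Fin k ≃ S := (finCongr hS.2.symm).trans S.equivFin.symm
        refine ⟨fun i => ⟨(e i : ℕ) % Nat.lcmUpto (D * k), Nat.mod_lt _ hΛ⟩, mem_univ _, ?_⟩
        ext z
        simp only [P, mem_image, mem_univ, true_and]
        constructor
        · rintro ⟨i, rfl⟩
          exact ⟨e i, (e i).2, rfl⟩
        · rintro ⟨x, hx, rfl⟩
          refine ⟨e.symm ⟨x, hx⟩, ?_⟩
          rw [Equiv.apply_symm_apply]
      · rw [mem_filter]
        exact ⟨mem_univ _, hWcard S hS.1 hS.2⟩)
    (2 ^ q)
    (by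
      intro b _
      rcases ((G.powersetCard k).filter (fun S => (P S, W S) = b)).eq_empty_or_nonempty with
        he | ⟨S0, hS0⟩
      · rw [he]; simp
      · rw [mem_filter, mem_powersetCard] at hS0
        set v : Fin m → Bool := fun i => decide (T i ∩ S0 = ∅) with hv
        have hinj : Set.InjOn (fun S => S ∩ Q v)
            ((G.powersetCard k).filter (fun S => (P S, W S) = b)) := by
          intro S hS S' hS' hSS
          simp only [coe_filter, mem_powersetCard, Set.mem_ofPred_eq] at hS hS'
          simp only at hSS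
          have e1 : (P S, W S) = (P S', W S') := hS.2.trans hS'.2.symm
          have e2 : (P S, W S) = (P S0, W S0) := hS.2.trans hS0.2.symm
          rw [Prod.mk.injEq] at e1 e2
          have hansS : (fun i => decide (T i ∩ S = ∅)) = v := by
            funext i
            rw [hv]
            simp only [decide_eq_decide]
            exact hans S S0 hS.1.1 hS0.1.1 e2.1 e2.2 i
          apply hsucc S S' (hS.1.1.trans hGn) (hS'.1.1.trans hGn) hS.1.2.le hS'.1.2.le
            (hans S S' hS.1.1 hS'.1.1 e1.1 e1.2)
          intro j hj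
          rw [hansS] at hj
          constructor
          · intro hjS
            have : j ∈ S ∩ Q v := mem_inter.2 ⟨hjS, hj⟩
            rw [hSS] at this
            exact (mem_inter.1 this).1
          · intro hjS
            have : j ∈ S' ∩ Q v := mem_inter.2 ⟨hjS, hj⟩
            rw [← hSS] at this
            exact (mem_inter.1 this).1
        have hmap : ∀ S ∈ (G.powersetCard k).filter (fun S => (P S, W S) = b),
            (fun S => S ∩ Q v) S ∈ (Q v).powerset := by
          intro S _
          rw [mem_powerset]
          exact inter_subset_right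
        refine (card_le_card_of_injOn _ hmap hinj).trans ?_
        rw [card_powerset]
        exact Nat.pow_le_pow_right (by norm_num) (hQ v).2)
  rw [card_powersetCard] at hmain
  refine hmain.trans ?_
  rw [card_product]
  refine Nat.mul_le_mul_left _ (Nat.mul_le_mul_right _ ?_)
  refine card_image_le.trans (le_of_eq ?_)
  rw [card_univ, Fintype.card_fun, Fintype.card_fin, Fintype.card_fin]

end Pool.Agent.KS6_51.APT
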