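import Pool.Agent.KS6_51.APT.Core

set_option autoImplicit false

open Finset

namespace Pool.Agent.KS6_51.APT

open Pool.Agent.H21.GroupTesting

theorem two_pow_le_exp (t : ℕ) : (2 : ℝ) ^ t ≤ Real.exp t := by
  have : Real.exp t = Real.exp 1 ^ t := by
    rw [← Real.exp_nat_mul, mul_one]
  rw [this]
  apply pow_le_pow_left₀ (by norm_num)
  have := Real.add_one_le_exp (1 : ℝ)
  linarith

theorem lcm_pow_le (D k : ℕ) :
    ((Nat.lcmUpto (D * k) : ℕ) : ℝ) ^ k ≤ Real.exp (k * (6 * (D * k))) := by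
  have h1 : ((Nat.lcmUpto (D * k) : ℕ) : ℝ) = Real.exp (Chebyshev.psi ((D * k : ℕ) : ℝ)) := by
    rw [Chebyshev.psi_eq_log_lcmUpto, Real.exp_log]
    exact_mod_cast Nat.lcmUpto_pos _
  have h2 : Chebyshev.psi ((D * k : ℕ) : ℝ) ≤ 6 * (D * k) := by
    have h3 := Chebyshev.psi_le_const_mul_self (x := ((D * k : ℕ) : ℝ)) (Nat.cast_nonneg _)
    have h4 : Real.log 4 ≤ 2 := by
      have : Real.log 4 = 2 * Real.log 2 := by
        rw [show (4 : ℝ) = 2 ^ 2 by norm_num, Real.log_pow]
        norm_num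
      have := Real.log_two_lt_d9
      linarith
    have h5 : (Real.log 4 + 4) * ((D * k : ℕ) : ℝ) ≤ 6 * ((D * k : ℕ) : ℝ) :=
      mul_le_mul_of_nonneg_right (by linarith) (Nat.cast_nonneg _)
    have h6 := h3.trans h5
    push_cast at h6 ⊢
    exact h6
  rw [h1, ← Real.exp_nat_mul]
  apply Real.exp_le_exp.2
  exact mul_le_mul_of_nonneg_left h2 (Nat.cast_nonneg _)

set_option maxHeartbeats 4000000 in
/-- the lower bound -/
theorem lower (C : ℝ) : ∃ N : ℕ, ∀ n : ℕ, N ≤ n → ∀ k m q : ℕ, 1 ≤ k →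
    48 * (k : ℝ) ≤ Real.log n → (q : ℝ) ≤ C * k → HasProcedure n k m q →
    Real.log n ^ 2 / (3072 * Real.log (Real.exp 1 * Real.log n / k)) ≤ m := by
  set B : ℝ := max C 1 with hB
  have hB1 : 1 ≤ B := le_max_right _ _
  -- largeness conditions
  have hev : ∀ᶠ y : ℝ in Filter.atTop, 1 ≤ y ∧ 8 * B ≤ 2 * Real.log y ∧
      6 * 3 * (2 * Real.log y) ^ 4 ≤ y := by
    have h1 := ((Real.isLittleO_pow_log_id_atTop (n := 4)).bound
      (c := 1 / (6 * 3 * 16)) (by positivity))
    have h2 := Real.tendsto_log_atTop.eventually (Filter.eventually_ge_atTop (4 * B))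
    filter_upwards [h1, h2, Filter.eventually_ge_atTop 1] with y hy1 hy2 hy3
    refine ⟨hy3, by linarith, ?_⟩
    simp only [id, Real.norm_eq_abs] at hy1
    rw [abs_of_nonneg (pow_nonneg (Real.log_nonneg hy3) 4), abs_of_nonneg (by linarith)] at hy1
    have h5 : 6 * 3 * (2 * Real.log y) ^ 4 = 6 * 3 * 16 * Real.log y ^ 4 := by ring
    rw [h5]
    have h6 : 6 * 3 * 16 * (1 / (6 * 3 * 16) * y) = y := by ring
    linarith
  have hev2 : ∀ᶠ n : ℕ in Filter.atTop, 1 ≤ Real.sqrt n ∧ 8 * B ≤ 2 * Real.log (Real.sqrt n) ∧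
      6 * 3 * (2 * Real.log (Real.sqrt n)) ^ 4 ≤ Real.sqrt n :=
    (Real.tendsto_sqrt_atTop.comp tendsto_natCast_atTop_atTop).eventually hev
  obtain ⟨N, hN⟩ := Filter.eventually_atTop.1 hev2
  refine ⟨N, ?_⟩
  intro n hn k m q hk hkL hq hP
  obtain ⟨hy1, hyB, hy3⟩ := hN n hn
  set y := Real.sqrt n with hy
  set L := Real.log n with hL
  have hn0 : (0 : ℝ) ≤ n := Nat.cast_nonneg n
  have hyn : y ^ 2 = n := Real.sq_sqrt hn0
  have hLy : 2 * Real.log y = L := by
    rw [hL, ← hyn, Real.log_pow]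
    norm_num
  rw [hLy] at hyB hy3
  have hkR : (1 : ℝ) ≤ k := by exact_mod_cast hk
  have hL48 : 48 ≤ L := by linarith
  have hkL' : (k : ℝ) ≤ L := by linarith
  have hkpos : (0 : ℝ) < k := by linarith
  set ℓ := Real.log (Real.exp 1 * L / k) with hℓ
  have hLk : 48 ≤ L / k := by
    rw [le_div_iff₀ hkpos]
    exact hkL
  have hℓe : ℓ = 1 + Real.log (L / k) := by
    rw [hℓ, mul_div_assoc, Real.log_mul (Real.exp_ne_zero _) (by positivity), Real.log_exp]
  have hℓ1 : 1 ≤ ℓ := by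
    rw [hℓe]
    have := Real.log_nonneg (show (1 : ℝ) ≤ L / k by linarith)
    linarith
  by_contra hcon
  rw [not_le, lt_div_iff₀ (by positivity)] at hcon
  have hmL : (m : ℝ) ≤ L ^ 2 := by
    have h0 : (0 : ℝ) ≤ m := Nat.cast_nonneg m
    nlinarith
  have hmA2 : (2 * m + 1 : ℝ) ≤ 3 * L ^ 2 := by nlinarith
  -- the parameter
  set D := ⌊L / k / 48⌋₊ with hD
  have hDle : (D : ℝ) ≤ L / k / 48 := Nat.floor_le (by positivity)
  have hD1 : 1 ≤ D := by
    rw [hD, Nat.one_le_floor_iff]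
    linarith
  have hDpos : (1 : ℝ) ≤ D := by exact_mod_cast hD1
  have hDge : L / k / 96 ≤ (D : ℝ) := by
    have h1 : L / k / 48 < D + 1 := Nat.lt_floor_add_one _
    linarith
  have hDL : (D : ℝ) ≤ L := by
    have : L / k ≤ L := div_le_self (by linarith) hkR
    linarith
  have hDkL : (D : ℝ) * k ≤ L / 48 := by
    have h1 : (D : ℝ) * k ≤ L / k / 48 * k := by gcongr
    have h2 : L / k / 48 * k = L / 48 := by field_simp
    linarith
  -- the block length
  set h := n / (2 * m + 1) with hh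
  have hhn : (2 * m + 1) * h ≤ n := Nat.mul_div_le n (2 * m + 1)
  have hhlow : 2 * L * y + 2 * L + L * L ≤ (h : ℝ) := by
    have h1 : (n : ℝ) < (h + 1) * (2 * m + 1) := by
      have := Nat.lt_div_mul_add (a := n) (b := 2 * m + 1) (by omega)
      rw [← hh] at this
      have h2 : n < (h + 1) * (2 * m + 1) := by
        calc n < h * (2 * m + 1) + (2 * m + 1) := this
          _ = (h + 1) * (2 * m + 1) := by ring
      exact_mod_cast h2
    have h2 : ((h : ℝ) + 1) * (2 * m + 1) ≤ (h + 1) * (3 * L ^ 2) := by gcongr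
    have h3 : (2 * L * y + 2 * L + L * L + 1) * (3 * L ^ 2) ≤ n := by
      rw [← hyn]
      have e1 : 2 * L * y + 2 * L + L * L + 1 ≤ 6 * L ^ 2 * y := by
        have a1 : L ≤ L ^ 2 := by nlinarith
        have a2 : L * y ≤ L ^ 2 * y := by gcongr
        have a3 : L ^ 2 ≤ L ^ 2 * y := by nlinarith [sq_nonneg L]
        nlinarith
      calc (2 * L * y + 2 * L + L * L + 1) * (3 * L ^ 2)
          ≤ (6 * L ^ 2 * y) * (3 * L ^ 2) := by gcongr
        _ = (6 * 3 * L ^ 4) * y := by ring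
        _ ≤ y * y := by gcongr
        _ = y ^ 2 := by ring
    have h4 : (2 * L * y + 2 * L + L * L + 1) * (3 * L ^ 2) < ((h : ℝ) + 1) * (3 * L ^ 2) :=
      h3.trans_lt (h1.trans_le h2)
    have h5 := lt_of_mul_lt_mul_right h4 (by positivity)
    linarith
  have hDk : D * k ≤ h := by
    have : (D : ℝ) * k ≤ h := by
      have h2 : 0 ≤ 2 * L * y := by positivity
      nlinarith
    exact_mod_cast this
  obtain ⟨g, hg1, hg2⟩ := core' n k m q D h hk hD1 hhn hDk hP
  -- upper bound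
  have hup : ((g.choose k : ℕ) : ℝ) ≤ Real.exp (k * (3 / 8 * L)) := by
    have h1 : ((g.choose k : ℕ) : ℝ) ≤ 2 ^ q * (((Nat.lcmUpto (D * k) : ℕ) : ℝ) ^ k *
        ((((univ : Finset (Finset (Fin m))).filter (fun W => W.card * D ≤ 4 * m)).card : ℕ) : ℝ)) := by
      exact_mod_cast hg2
    have h3 : (2 : ℝ) ^ q ≤ Real.exp (k * (L / 8)) := by
      refine (two_pow_le_exp q).trans (Real.exp_le_exp.2 ?_)
      calc (q : ℝ) ≤ C * k := hq
        _ ≤ B * k := by
            have : C ≤ B := le_max_left _ _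
            gcongr
        _ ≤ k * (L / 8) := by nlinarith
    have h4 : ((Nat.lcmUpto (D * k) : ℕ) : ℝ) ^ k ≤ Real.exp (k * (L / 8)) := by
      refine (lcm_pow_le D k).trans (Real.exp_le_exp.2 ?_)
      have : 6 * ((D : ℝ) * k) ≤ L / 8 := by linarith
      gcongr
    have h5 : ((((univ : Finset (Finset (Fin m))).filter
        (fun W => W.card * D ≤ 4 * m)).card : ℕ) : ℝ) ≤ Real.exp (k * (L / 8)) := by
      refine (card_small m D hD1).trans (Real.exp_le_exp.2 ?_)
      have e0 : Real.log D ≤ Real.log (L / k) := by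
        apply Real.log_le_log (by linarith)
        linarith
      have e1 : 4 * Real.log D + 1 ≤ 4 * ℓ := by rw [hℓe]; linarith
      have e2 : (4 * Real.log D + 1) / (D : ℝ) ≤ 4 * ℓ / (L / k / 96) := by
        have a1 : 0 ≤ 4 * Real.log D + 1 := by
          have := Real.log_nonneg hDpos
          linarith
        gcongr
      calc (m : ℝ) * ((4 * Real.log D + 1) / D) ≤ m * (4 * ℓ / (L / k / 96)) := by
            gcongr
        _ = (m * (3072 * ℓ)) * (k / (8 * L)) := by
            field_simp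
            ring
        _ ≤ L ^ 2 * (k / (8 * L)) := by
            have : 0 ≤ (k : ℝ) / (8 * L) := by positivity
            exact mul_le_mul_of_nonneg_right hcon.le this
        _ = k * (L / 8) := by
            field_simp
    calc ((g.choose k : ℕ) : ℝ) ≤ _ := h1
      _ ≤ Real.exp (k * (L / 8)) * (Real.exp (k * (L / 8)) * Real.exp (k * (L / 8))) := by
          gcongr
      _ = Real.exp (k * (3 / 8 * L)) := by
          rw [← Real.exp_add, ← Real.exp_add]
          congr 1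
          ring
  -- lower bound
  have hgR : (h : ℝ) ≤ 2 * g := by exact_mod_cast hg1
  have hlow1 : (k : ℝ) * y ≤ (g : ℝ) + 1 - k := by
    have e1 : (k : ℝ) * y ≤ L * y := by gcongr
    have e2 : 0 ≤ L * L := by positivity
    nlinarith
  have hkg : k ≤ g + 1 := by
    have : (k : ℝ) ≤ g + 1 := by
      have : 0 ≤ (k : ℝ) * y := by positivity
      linarith
    exact_mod_cast this
  have hlow : y ^ k ≤ ((g.choose k : ℕ) : ℝ) := by
    have h1 := Nat.pow_le_choose (α := ℝ) k g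
    refine le_trans ?_ h1
    rw [le_div_iff₀ (by positivity)]
    have h2 : ((k.factorial : ℕ) : ℝ) ≤ (k : ℝ) ^ k := by
      exact_mod_cast Nat.factorial_le_pow k
    have h3 : ((g + 1 - k : ℕ) : ℝ) = (g : ℝ) + 1 - k := by
      rw [Nat.cast_sub hkg]
      push_cast
      ring
    calc y ^ k * ((k.factorial : ℕ) : ℝ) ≤ y ^ k * (k : ℝ) ^ k := by gcongr
      _ = ((k : ℝ) * y) ^ k := by rw [mul_pow]; ring
      _ ≤ ((g : ℝ) + 1 - k) ^ k := by gcongr
      _ = _ := by rw [← h3]
  have hyexp : y = Real.exp (L / 2) := by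
    rw [← hLy]
    have : (2 * Real.log y) / 2 = Real.log y := by ring
    rw [this, Real.exp_log (by linarith)]
  have hfin : Real.exp (k * (L / 2)) ≤ Real.exp (k * (3 / 8 * L)) := by
    refine le_trans ?_ (hlow.trans hup)
    rw [hyexp, ← Real.exp_nat_mul]
  have := Real.exp_le_exp.1 hfin
  nlinarith

end Pool.Agent.KS6_51.APT
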