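import Pool.Graph.R_pool_sql_team_79ade240.H21.GroupTestingDefs
import Mathlib.NumberTheory.Chebyshev

set_option autoImplicit false

open Finset

namespace Pool.Agent.KS6_51.APT

open Pool.Agent.H21.GroupTesting

/-- a procedure without second stage from a family of progressions indexed by a finite type -/
theorem proc_of_family {ι : Type} [Fintype ι] (n k m : ℕ) (hm : Fintype.card ι = m)
    (T : ι → Finset ℕ) (hT : ∀ i, IsProgression n (T i))
    (h : ∀ S S' : Finset ℕ, S ⊆ Icc 1 n → S' ⊆ Icc 1 n → S.card ≤ k → S'.card ≤ k →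
      (∀ i, T i ∩ S = ∅ ↔ T i ∩ S' = ∅) → S ⊆ S') : HasProcedure n k m 0 := by
  let e : ι ≃ Fin m := Fintype.equivFinOfCardEq hm
  refine ⟨fun i => T (e.symm i), fun _ => ∅, fun i => hT _, fun v => ⟨empty_subset _, by simp⟩, ?_⟩
  intro S S' hS hS' hk hk' hans _
  have hans' : ∀ i, T i ∩ S = ∅ ↔ T i ∩ S' = ∅ := by
    intro i
    have := hans (e i)
    simpa using this
  exact Subset.antisymm (h S S' hS hS' hk hk' hans')
    (h S' S hS' hS hk' hk fun i => (hans' i).symm)

/-- all singletons -/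
theorem proc_singletons (n k : ℕ) : HasProcedure n k n 0 := by
  refine proc_of_family (ι := Fin n) n k n (Fintype.card_fin n) (fun i => {(i : ℕ) + 1}) ?_ ?_
  · intro i
    refine ⟨(i : ℕ) + 1, 1, 0, by omega, le_rfl, by omega, ?_⟩
    simp
  · intro S S' hS hS' _ _ hans x hx
    have hx1 := mem_Icc.1 (hS hx)
    have h1 := hans ⟨x - 1, by omega⟩
    have hxx : x - 1 + 1 = x := by omega
    simp only [hxx] at h1
    by_contra hcon
    have h2 : ({x} : Finset ℕ) ∩ S' = ∅ := by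
      rw [singleton_inter_of_notMem hcon]
    have h3 := h1.2 h2
    rw [singleton_inter_of_mem hx] at h3
    exact absurd h3 (singleton_ne_empty x)

/-- the residue classes modulo the primes up to `P` -/
theorem proc_of_theta (n k P : ℕ) (hP : P ≤ n)
    (hθ : (k : ℝ) * Real.log n < Chebyshev.theta P) :
    HasProcedure n k (∑ p ∈ Nat.primesLE P, p) 0 := by
  classical
  let ι : Type := Σ p : (Nat.primesLE P : Finset ℕ), Fin (p : ℕ)
  have hcard : Fintype.card ι = ∑ p ∈ Nat.primesLE P, p := by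
    rw [Fintype.card_sigma]
    simp only [Fintype.card_fin]
    exact Finset.sum_coe_sort (Nat.primesLE P) (fun p => p)
  have hpp : ∀ p ∈ Nat.primesLE P, p.Prime ∧ p ≤ P := fun p hp =>
    ⟨Nat.prime_of_mem_primesLE hp, Nat.le_of_mem_primesLE hp⟩
  let T : ι → Finset ℕ := fun i =>
    (range ((n - ((i.2 : ℕ) + 1)) / (i.1 : ℕ) + 1)).image fun j => ((i.2 : ℕ) + 1) + j * (i.1 : ℕ)
  refine proc_of_family (ι := ι) n k _ hcard T ?_ ?_
  · intro i
    have h1 := hpp i.1.1 i.1.2
    refine ⟨(i.2 : ℕ) + 1, i.1, (n - ((i.2 : ℕ) + 1)) / (i.1 : ℕ), by omega, h1.1.one_le, ?_, rfl⟩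
    have h2 := Nat.div_mul_le_self (n - ((i.2 : ℕ) + 1)) (i.1 : ℕ)
    have h3 := i.2.2
    omega
  · intro S S' hS hS' hk hk' hans x hx
    by_contra hxS'
    have hx1 := mem_Icc.1 (hS hx)
    have hn1 : 1 ≤ n := hx1.1.trans hx1.2
    have key : ∀ p ∈ Nat.primesLE P, ∃ s ∈ S', (p : ℤ) ∣ (x : ℤ) - s := by
      intro p hp
      have h1 := hpp p hp
      have hppos : 0 < p := h1.1.pos
      let i : ι := ⟨⟨p, hp⟩, ⟨(x - 1) % p, Nat.mod_lt _ hppos⟩⟩
      have hxp : (x - 1) % p + 1 + (x - 1) / p * p = x := by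
        have := Nat.mod_add_div (x - 1) p
        rw [mul_comm] at this
        omega
      have hxT : x ∈ T i := by
        refine mem_image.2 ⟨(x - 1) / p, ?_, hxp⟩
        rw [mem_range, Nat.lt_add_one_iff]
        show (x - 1) / p ≤ (n - ((x - 1) % p + 1)) / p
        rw [Nat.le_div_iff_mul_le hppos]
        omega
      have hne : T i ∩ S ≠ ∅ := by
        intro h0
        have : x ∈ T i ∩ S := mem_inter.2 ⟨hxT, hx⟩
        rw [h0] at this
        exact absurd this (notMem_empty x)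
      have hne' : T i ∩ S' ≠ ∅ := fun h0 => hne ((hans i).2 h0)
      obtain ⟨s, hs⟩ := nonempty_iff_ne_empty.2 hne'
      rw [mem_inter] at hs
      obtain ⟨j, _, hj⟩ := mem_image.1 hs.1
      refine ⟨s, hs.2, ?_⟩
      have hj' : (x - 1) % p + 1 + j * p = s := hj
      refine ⟨((x - 1) / p : ℕ) - (j : ℤ), ?_⟩
      have e1 : (x : ℤ) = ((x - 1) % p : ℕ) + 1 + ((x - 1) / p : ℕ) * p := by
        exact_mod_cast hxp.symm
      have e2 : (s : ℤ) = ((x - 1) % p : ℕ) + 1 + j * p := by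
        exact_mod_cast hj'.symm
      rw [e1, e2]
      ring
    -- the product
    have hdvd : (∏ p ∈ Nat.primesLE P, p) ∣ ∏ s ∈ S', ((x : ℤ) - s).natAbs := by
      apply Finset.prod_primes_dvd
      · intro p hp
        exact (hpp p hp).1.prime
      · intro p hp
        obtain ⟨s, hs, hd⟩ := key p hp
        exact (Int.natCast_dvd.1 hd).trans (dvd_prod_of_mem _ hs)
    have hpos : 0 < ∏ s ∈ S', ((x : ℤ) - s).natAbs := by
      apply prod_pos
      intro s hs
      rw [Int.natAbs_pos, sub_ne_zero]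
      intro h
      have : x = s := by exact_mod_cast h
      exact hxS' (this ▸ hs)
    have hle : ∏ s ∈ S', ((x : ℤ) - s).natAbs ≤ n ^ k := by
      calc ∏ s ∈ S', ((x : ℤ) - s).natAbs ≤ ∏ _s ∈ S', n := by
            apply prod_le_prod' 
            intro s hs
            have := mem_Icc.1 (hS' hs)
            omega
        _ = n ^ S'.card := by rw [prod_const]
        _ ≤ n ^ k := Nat.pow_le_pow_right hn1 hk'
    have hfin := (Nat.le_of_dvd hpos hdvd).trans hle
    have hθ2 : Chebyshev.theta P = Real.log ((∏ p ∈ Nat.primesLE P, p : ℕ) : ℝ) := by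
      rw [Chebyshev.theta_eq_sum_primesLE_log, Nat.cast_prod, Real.log_prod]
      intro p hp
      exact_mod_cast (hpp p hp).1.pos.ne'
    have hprodpos : 0 < ∏ p ∈ Nat.primesLE P, p := prod_pos fun p hp => (hpp p hp).1.pos
    have h5 : Chebyshev.theta P ≤ k * Real.log n := by
      rw [hθ2, ← Real.log_pow]
      apply Real.log_le_log (by exact_mod_cast hprodpos)
      exact_mod_cast hfin
    linarith

theorem theta_ge_half : ∃ P₀ : ℕ, ∀ P : ℕ, P₀ ≤ P → (P : ℝ) / 2 ≤ Chebyshev.theta P := by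
  have hev : ∀ᶠ y : ℝ in Filter.atTop, 1 ≤ y ∧ Real.log y ≤ 1 / 40 * y ∧ 40 ≤ y := by
    have h1 := (Real.isLittleO_log_id_atTop.bound (c := 1 / 40) (by positivity))
    filter_upwards [h1, Filter.eventually_ge_atTop 1, Filter.eventually_ge_atTop 40] with y a b c
    refine ⟨b, ?_, c⟩
    simp only [id, Real.norm_eq_abs] at a
    rwa [abs_of_nonneg (Real.log_nonneg b), abs_of_nonneg (by linarith)] at a
  have hev2 : ∀ᶠ n : ℕ in Filter.atTop, 1 ≤ Real.sqrt n ∧
      Real.log (Real.sqrt n) ≤ 1 / 40 * Real.sqrt n ∧ 40 ≤ Real.sqrt n :=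
    (Real.tendsto_sqrt_atTop.comp tendsto_natCast_atTop_atTop).eventually hev
  obtain ⟨N, hN⟩ := Filter.eventually_atTop.1 hev2
  refine ⟨N, fun P hP => ?_⟩
  obtain ⟨h1, h2, h3⟩ := hN P hP
  have h4 := Chebyshev.theta_ge P
  set y := Real.sqrt P with hy
  have hyP : y ^ 2 = P := Real.sq_sqrt (Nat.cast_nonneg _)
  have hlog : Real.log P = 2 * Real.log y := by
    rw [← hyP, Real.log_pow]
    norm_num
  have hlog2 := Real.log_two_gt_d9
  have h5 : Real.log ((P : ℝ) + 1) ≤ 1 + 2 * Real.log y := by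
    have hP1 : (1 : ℝ) ≤ P := by rw [← hyP]; nlinarith
    have : (P : ℝ) + 1 ≤ 2 * P := by linarith
    calc Real.log ((P : ℝ) + 1) ≤ Real.log (2 * P) := Real.log_le_log (by linarith) this
      _ = Real.log 2 + Real.log P := Real.log_mul (by norm_num) (by linarith)
      _ ≤ 1 + 2 * Real.log y := by
        rw [hlog]
        have := Real.log_two_lt_d9
        linarith
  rw [hlog] at h4
  have h6 : 2 * y * (2 * Real.log y) ≤ 1 / 10 * y ^ 2 := by nlinarith
  have h7 : 1 + 2 * Real.log y ≤ 1 / 20 * y ^ 2 := by nlinarith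
  rw [← hyP] at h4 h5 ⊢
  nlinarith

theorem log_le_sqrt (x : ℝ) (hx : 0 < x) : Real.log x ≤ Real.sqrt x := by
  have h1 : Real.log x = 4 * Real.log (Real.sqrt (Real.sqrt x)) := by
    rw [Real.log_sqrt (Real.sqrt_nonneg x), Real.log_sqrt hx.le]
    ring
  have h0 : 0 < Real.sqrt (Real.sqrt x) := Real.sqrt_pos.2 (Real.sqrt_pos.2 hx)
  have h2 := Real.log_le_sub_one_of_pos h0
  have h3 : Real.sqrt (Real.sqrt x) ^ 2 = Real.sqrt x := Real.sq_sqrt (Real.sqrt_nonneg x)
  nlinarith [sq_nonneg (Real.sqrt (Real.sqrt x) - 2)]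

theorem sum_primes_le (P : ℕ) (hP : 2 ≤ P) :
    ((∑ p ∈ Nat.primesLE P, p : ℕ) : ℝ) ≤ 4 * (P : ℝ) ^ 2 / Real.log P := by
  have hP2 : (2 : ℝ) ≤ P := by exact_mod_cast hP
  have hlogpos : 0 < Real.log P := Real.log_pos (by linarith)
  have h1 : ((∑ p ∈ Nat.primesLE P, p : ℕ) : ℝ) ≤ (Nat.primeCounting P : ℝ) * P := by
    have : ∑ p ∈ Nat.primesLE P, p ≤ (Nat.primesLE P).card * P := by
      rw [← smul_eq_mul, ← sum_const]
      exact sum_le_sum fun p hp => Nat.le_of_mem_primesLE hp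
    rw [Nat.primesLE_card_eq_primeCounting] at this
    exact_mod_cast this
  have h2 := Chebyshev.pi_le_log4_mul_div (x := (P : ℝ)) (by linarith)
  rw [Nat.floor_natCast, Real.log_sqrt (by linarith)] at h2
  have h3 : Real.sqrt P ≤ P / Real.log P := by
    rw [le_div_iff₀ hlogpos]
    have := log_le_sqrt P (by linarith)
    have h4 : Real.sqrt P * Real.sqrt P = P := Real.mul_self_sqrt (by linarith)
    nlinarith [Real.sqrt_nonneg (P : ℝ)]
  have h4 : Real.log 4 ≤ 3 / 2 := by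
    have : Real.log 4 = 2 * Real.log 2 := by
      rw [show (4 : ℝ) = 2 ^ 2 by norm_num, Real.log_pow]
      norm_num
    have := Real.log_two_lt_d9
    linarith
  have h5 : (Nat.primeCounting P : ℝ) ≤ 4 * P / Real.log P := by
    refine h2.trans ?_
    have e1 : Real.log 4 * (P : ℝ) / (Real.log P / 2) = 2 * Real.log 4 * (P / Real.log P) := by
      field_simp
    have e2 : 4 * (P : ℝ) / Real.log P = 4 * (P / Real.log P) := by ring
    rw [e1, e2]
    have e3 : 0 ≤ (P : ℝ) / Real.log P := by positivity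
    nlinarith
  calc ((∑ p ∈ Nat.primesLE P, p : ℕ) : ℝ) ≤ (Nat.primeCounting P : ℝ) * P := h1
    _ ≤ 4 * P / Real.log P * P := by gcongr
    _ = 4 * (P : ℝ) ^ 2 / Real.log P := by ring

/-- the upper bound -/
theorem upper : ∃ N : ℕ, ∀ n : ℕ, N ≤ n → ∀ k : ℕ, 1 ≤ k →
    ∃ m : ℕ, (m : ℝ) ≤ 64 * (k : ℝ) ^ 2 * Real.log n ^ 2 / Real.log (Real.log n) ∧
      HasProcedure n k m 0 := by
  obtain ⟨P₀, hP₀⟩ := theta_ge_half
  have hev : ∀ᶠ x : ℝ in Filter.atTop, 3 ≤ Real.log x ∧ (P₀ : ℝ) ≤ Real.log x ∧ 1 ≤ x :=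
    (Real.tendsto_log_atTop.eventually (Filter.eventually_ge_atTop 3)).and
      ((Real.tendsto_log_atTop.eventually (Filter.eventually_ge_atTop (P₀ : ℝ))).and
        (Filter.eventually_ge_atTop 1))
  obtain ⟨N, hN⟩ := Filter.eventually_atTop.1 (tendsto_natCast_atTop_atTop.eventually hev)
  refine ⟨N, fun n hn k hk => ?_⟩
  obtain ⟨hL3, hLP, hn1⟩ := hN n hn
  set L := Real.log n with hL
  have hkR : (1 : ℝ) ≤ k := by exact_mod_cast hk
  have hLL : 0 < Real.log L := Real.log_pos (by linarith)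
  set P := ⌈3 * k * L⌉₊ with hP
  have hPge : 3 * k * L ≤ P := Nat.le_ceil _
  have hPle : (P : ℝ) ≤ 4 * k * L := by
    have h1 := (Nat.ceil_lt_add_one (show 0 ≤ 3 * k * L by positivity)).le
    have h2 : 1 ≤ k * L := by nlinarith
    have h3 : (P : ℝ) ≤ 3 * k * L + 1 := h1
    nlinarith
  have hkL : L ≤ k * L := by nlinarith
  have hPL : L ≤ P := by nlinarith
  rcases le_or_gt P n with hPn | hPn
  · refine ⟨∑ p ∈ Nat.primesLE P, p, ?_, ?_⟩
    · have hP2 : 2 ≤ P := by
        have : (2 : ℝ) ≤ P := by linarith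
        exact_mod_cast this
      refine (sum_primes_le P hP2).trans ?_
      have h1 : Real.log L ≤ Real.log P := Real.log_le_log (by linarith) hPL
      have h2 : 4 * (P : ℝ) ^ 2 ≤ 64 * (k : ℝ) ^ 2 * L ^ 2 := by
        have h3 : (P : ℝ) ^ 2 ≤ (4 * k * L) ^ 2 := by gcongr
        nlinarith
      gcongr
    · apply proc_of_theta n k P hPn
      have h1 : P₀ ≤ P := by
        have : (P₀ : ℝ) ≤ P := by linarith
        exact_mod_cast this
      have h2 := hP₀ P h1
      have h3 : 0 < k * L := by nlinarith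
      have h4 : (3 / 2 : ℝ) * (k * L) ≤ P / 2 := by nlinarith
      calc (k : ℝ) * L < 3 / 2 * (k * L) := by linarith
        _ ≤ P / 2 := h4
        _ ≤ _ := h2
  · refine ⟨n, ?_, proc_singletons n k⟩
    have hn0 : (0 : ℝ) < n := by linarith
    have h1 : (n : ℝ) ≤ 4 * k * L := by
      have : (n : ℝ) ≤ P := by exact_mod_cast hPn.le
      linarith
    have h2 : Real.log L ≤ n := by
      have a1 := Real.log_le_sub_one_of_pos (show 0 < L by linarith)
      have a2 := Real.log_le_sub_one_of_pos hn0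
      linarith
    rw [le_div_iff₀ hLL]
    calc (n : ℝ) * Real.log L ≤ n * n := by gcongr
      _ ≤ (4 * k * L) * (4 * k * L) := by gcongr
      _ ≤ 64 * (k : ℝ) ^ 2 * L ^ 2 := by nlinarith [sq_nonneg ((k : ℝ) * L)]

end Pool.Agent.KS6_51.APT
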